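import Pool.Agent.NH20.BU.Ind

set_option autoImplicit false

/-!
# Elements of almost full order for EVERY prime `p` in deterministic time `p ^ θ`, `θ > 0` arbitrary

For every `θ > 0` there is `K` such that a deterministic algorithm, which gets only the prime `p`, works in
at most `p ^ θ` rounds of polynomial time and outputs a list of `(size p) ^ C` numbers such that, for every
large prime `p` without exception, all but a fraction `(size p) ^ (-B)` of the entries `g` generate a
subgroup of `(ℤ/p)ˣ` whose index has prime factors `l ≤ K` only, and only such `l` for which all numbers up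
to `p ^ η` are `l`-th power residues (`η < θ` arbitrary), and not `l = 2` if `p` is not `1` modulo `8`.

If `θ > 1 / (4 e ^ (1 - 1 / L))` one can take `K < L`: all entries are primitive roots for `θ > 0.1517`
(`L = 2`), the index is a power of `2` for `θ > 0.1284` (`L = 3`), and then it is `1` for all `p` which are
not `1` modulo `8`.

Method: the averages of the `l - 1` nontrivial powers of a character of order `l` in Vinogradov's argument
with Burgess' bound, smooth numbers for large `l`, trial division, and a search for power nonresidues with a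
clock.
-/

namespace Pool.Agent.Results.MP_18a8a6_lc.FewIndexPrimes

open Finset

/-- The list `F p` is computed, for every large prime `p`, in at most `τ p` rounds: there are functions
`init`, `round`, `out` on bit strings, computed by Turing machines in polynomial time (Mathlib's
`TM2ComputableInPolyTime`), such that the states `round^[t] (init (bits of p))` have polynomial length,
do not change any more after some `t ≤ τ p` rounds, and `out` sends the final state to the code of
the list `F p`. (So the running time is at most `τ p` times a power of `log p`, and the space is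
polynomial.) -/
def ComputedIn (τ : ℕ → ℝ) (F : ℕ → List ℕ) : Prop :=
  ∃ init round out : List Bool → List Bool,
    NPC.PolyTime init ∧ NPC.PolyTime round ∧ NPC.PolyTime out ∧
    ∃ k p₀ : ℕ, ∀ p : ℕ, p₀ ≤ p → p.Prime →
      (∀ t : ℕ, (round^[t] (init (Nat.bits p))).length ≤ p.size ^ k) ∧
      ∃ t : ℕ, (t : ℝ) ≤ τ p ∧
        round (round^[t] (init (Nat.bits p))) = round^[t] (init (Nat.bits p)) ∧
        out (round^[t] (init (Nat.bits p))) = NPC.bits (F p)

/-- The order `l` is exceptional for `p`: `l ≤ K`, all numbers up to `p ^ η` are `l`-th power residues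
modulo `p`, and it is not the case that `l = 2` and `p` is not `1` modulo `8`. -/
def Exceptional (K : ℕ) (η : ℝ) (p l : ℕ) : Prop :=
  l ≤ K ∧ ¬ (l = 2 ∧ p % 8 ≠ 1) ∧
    ∀ i : ℕ, 1 ≤ i → (i : ℝ) ≤ (p : ℝ) ^ η → (i : ZMod p) ^ ((p - 1) / l) = 1

/-- `g` is not divisible by `p` and all prime factors of the index `(p - 1) / ord g` of the group
generated by `g` modulo `p` are exceptional for `p`. -/
def NearlyPrimitive (K : ℕ) (η : ℝ) (p g : ℕ) : Prop :=
  (g : ZMod p) ≠ 0 ∧
    ∀ l : ℕ, l.Prime → l ∣ (p - 1) / orderOf (g : ZMod p) → Exceptional K η p l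

open Classical in
/-- Let `0 < θ < 1`, `η < θ` and `B`. There are `K`, `C` and a list `F p` of `n ^ C` numbers, `n = size p`
the number of binary digits of `p`, computed for every large prime `p` in at most `p ^ θ` rounds, such that
`K < L` for every `L ≥ 2` with `1 / (4 e ^ (1 - 1 / L)) < θ`, and for EVERY large prime `p` all but a
fraction `n ^ (-B)` of the entries of `F p` are nearly primitive. If no prime factor of `p - 1` is
exceptional for `p`, the nearly primitive numbers are primitive roots modulo `p`. -/
theorem result (θ η : ℝ) (hθ0 : 0 < θ) (hθ1 : θ < 1) (hη : η < θ) (B : ℕ) :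
    ∃ (K C : ℕ) (F : ℕ → List ℕ),
    (∀ L : ℕ, 2 ≤ L → 1 / (4 * Real.exp (1 - 1 / L)) < θ → K < L) ∧
    ComputedIn (fun p => (p : ℝ) ^ θ) F ∧
    (∀ p : ℕ, (F p).length = p.size ^ C) ∧
    (∃ p₀ : ℕ, ∀ p : ℕ, p₀ ≤ p → p.Prime →
      p.size ^ B * #{i ∈ range (F p).length | ¬ NearlyPrimitive K η p ((F p).getD i 0)} ≤
        (F p).length) ∧
    (∀ p g : ℕ, p.Prime → (∀ l : ℕ, l.Prime → l ∣ p - 1 → ¬ Exceptional K η p l) →
      NearlyPrimitive K η p g → orderOf (g : ZMod p) = p - 1) := by
  obtain ⟨K, C, F, h1, h2, h3, h4⟩ := Pool.Agent.NH20.BU.main_ind θ η hθ0 hθ1 hη B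
  exact ⟨K, C, F, h1, h2, h3, h4, fun p g hp hno hg =>
    Pool.Agent.NH20.BU.prim_of_almost hp η hg hno⟩

end Pool.Agent.Results.MP_18a8a6_lc.FewIndexPrimes
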