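import Pool.Agent.NH20.BT.Clk

set_option autoImplicit false

/-!
# Primitive roots in deterministic time `p ^ δ`, with boundedly many exceptional primes in `(x, x ^ 2]`

For every `δ > 0` and `B` a deterministic algorithm, which gets only the prime `p` (not the
factorisation of `p - 1`), works in at most `p ^ δ` rounds of polynomial time on states of polynomial
length and outputs a list of `(size p) ^ C` numbers; for all primes `p` except at most `K` of each
interval `(x, x ^ 2]`, all but a fraction `(size p) ^ (-B)` of these numbers are primitive roots modulo
`p`. So at most `O(log log x)` primes `p ≤ x` are exceptional.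

Method: trial division of `p - 1` and search of power nonresidues up to a small power of `p`; Linnik's
theorem on the least power nonresidue (smooth numbers and almost orthogonality of the characters of
different moduli); the polynomial-time list attached to the nonresidues found.
-/

namespace Pool.Agent.Results.MP_18a8a6_lc.LinnikExceptions

open Finset

/-- The list `F p` is computed, for every large prime `p`, in at most `τ p` rounds: there are functions
`init`, `round`, `out` on bit strings, computed by Turing machines in polynomial time (Mathlib's
`TM2ComputableInPolyTime`), such that the states `round^[t] (init (bits of p))` have polynomial length,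
do not change any more after some `t ≤ τ p` rounds, and `out` sends the final state to the code of
the list `F p`. (So the running time is at most `τ p` times a power of `log p`, and the space is
polynomial.) -/
def ComputedIn (τ : ℕ → ℝ) (F : ℕ → List ℕ) : Prop :=
  ∃ init round out : List Bool → List Bool,
    NPC.PolyTime init ∧ NPC.PolyTime round ∧ NPC.PolyTime out ∧
    ∃ k p₀ : ℕ, ∀ p : ℕ, p₀ ≤ p → p.Prime →
      (∀ t : ℕ, (round^[t] (init (Nat.bits p))).length ≤ p.size ^ k) ∧
      ∃ t : ℕ, (t : ℝ) ≤ τ p ∧
        round (round^[t] (init (Nat.bits p))) = round^[t] (init (Nat.bits p)) ∧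
        out (round^[t] (init (Nat.bits p))) = NPC.bits (F p)

/-- `g` is a primitive root modulo `p` -/
def IsPrimRoot (p g : ℕ) : Prop := orderOf (g : ZMod p) = p - 1

open Classical in
/-- For every `δ > 0` and every `B` there are `C` and a list `F p` of `n ^ C` numbers, `n = size p` the
number of binary digits of `p`, computed for every large prime `p` in at most `p ^ δ` rounds, and a
number `K` such that for every `x`, for all but at most `K` of the primes `p` with `x < p ≤ x ^ 2`, all
but a fraction `n ^ (-B)` of the entries of `F p` are primitive roots modulo `p`. -/
theorem result (δ : ℝ) (hδ : 0 < δ) (B : ℕ) : ∃ (C : ℕ) (F : ℕ → List ℕ),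
    ComputedIn (fun p => (p : ℝ) ^ δ) F ∧ (∀ p : ℕ, (F p).length = p.size ^ C) ∧
    ∃ K : ℕ, ∀ x : ℕ, #{p ∈ Ioc x (x ^ 2) | p.Prime ∧
      ¬ p.size ^ B * #{i ∈ range (F p).length | ¬ IsPrimRoot p ((F p).getD i 0)} ≤
        (F p).length} ≤ K :=
  Pool.Agent.NH20.BT.main_exc δ hδ B

end Pool.Agent.Results.MP_18a8a6_lc.LinnikExceptions
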